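import Pool.Agent.H5.ISt1

namespace Pool.Agent.Results.MP_8013b9_lc.No
open Pool.Agent.H5.ISt

theorem result : ∃ H : AddSubgroup UnitAddCircle, ∀ I : Set (Set ℕ), IsIdeal I → ∀ a : ℕ → ℤ,
    (H : Set UnitAddCircle) ≠ HStar a I := main

end Pool.Agent.Results.MP_8013b9_lc.No
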